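import Pool.Agent.MP_a88b1d_nt.H42.Spec

open Polynomial Quaternion

noncomputable section

namespace Pool.Agent.MP_a88b1d_nt.H11

open Pool.Agent.MP_a88b1d_nt.H42

theorem noroot (π k : ℕ) (hk : 2 ≤ k) (hdeg : (ofN π).natDegree = k)
    (hdec : ∀ a < 2 ^ k, ∀ b < 2 ^ k, clmul k π b ≠ clmul k a a ^^^ a ^^^ 2) (r : A) :
    ¬ ofN π ∣ r ^ 2 + r + X := by
  intro h
  have h0 : ofN π ≠ 0 := by
    intro h0
    rw [h0, natDegree_zero] at hdeg
    omega
  have hd : (r % ofN π).degree < k := by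
    have := degree_mod_lt r h0
    rwa [degree_eq_natDegree h0, hdeg] at this
  obtain ⟨a, ha, hr⟩ := exists_ofN hd
  have h1 : ofN π ∣ ofN a ^ 2 + ofN a + X := by
    have e : r = ofN π * (r / ofN π) + ofN a := by rw [hr, EuclideanDomain.div_add_mod]
    have e2 : ofN a ^ 2 + ofN a + X = r ^ 2 + r + X -
        ofN π * ((r / ofN π) * (r + ofN a + 1)) := by
      have e3 : ofN a = r - ofN π * (r / ofN π) := by linear_combination -e
      rw [e3]; ring
    rw [e2]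
    exact dvd_sub h (dvd_mul_right _ _)
  obtain ⟨s, hs⟩ := h1
  obtain ⟨k', rfl⟩ : ∃ k', k = k' + 1 := ⟨k - 1, by omega⟩
  have ha' := natDegree_ofN_le ha
  have hsd : s.degree < (k' + 1 : ℕ) := by
    by_cases hs0 : s = 0
    · rw [hs0, degree_zero]; exact WithBot.bot_lt_coe _
    · rw [← natDegree_lt_iff_degree_lt hs0]
      have e1 : (ofN π * s).natDegree = k' + 1 + s.natDegree := by
        rw [natDegree_mul h0 hs0, hdeg]
      have e2 : (ofN a ^ 2 + ofN a + X).natDegree ≤ 2 * k' := by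
        refine natDegree_add_le_of_degree_le (natDegree_add_le_of_degree_le ?_ (by omega)) ?_
        · exact natDegree_pow_le.trans (by omega)
        · rw [natDegree_X]; omega
      rw [hs] at e2
      omega
  obtain ⟨b, hb, rfl⟩ := exists_ofN hsd
  refine hdec a ha b hb (ofN_injective ?_)
  have h2 : ofN 2 = X := by simpa using ofN_two_pow 1
  rw [ofN_clmul _ _ _ hb, ofN_xor, ofN_xor, ofN_clmul _ _ _ ha, h2, ← hs]
  ring

theorem aniso {π : A} (hπ : Irreducible π) (hno : ∀ r : A, ¬ π ∣ r ^ 2 + r + X) {c d : A}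
    (h : π ∣ c ^ 2 + c * d + X * d ^ 2) : π ∣ c ∧ π ∣ d := by
  have hd : π ∣ d := by
    by_contra hd
    obtain ⟨v, u, huv⟩ := (hπ.coprime_iff_not_dvd.2 hd)
    refine hno (c * u) ?_
    have e : (c * u) ^ 2 + c * u + X = u ^ 2 * (c ^ 2 + c * d + X * d ^ 2) +
        π * (v * (c * u + X * (1 + u * d))) := by
      have e1 : v * π = 1 - u * d := by linear_combination huv
      linear_combination (-(c * u + X * (1 + u * d))) * e1
    rw [e]
    exact dvd_add (h.mul_left _) (dvd_mul_right _ _)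
  refine ⟨hπ.prime.dvd_of_dvd_pow (n := 2) ?_, hd⟩
  have e : c ^ 2 = (c ^ 2 + c * d + X * d ^ 2) - d * (c + X * d) := by ring
  rw [e]
  exact dvd_sub h (hd.mul_right _)

theorem nn_dvd (h : IRR) {c d : A} (hd : pp * qq ∣ c ^ 2 + c * d + X * d ^ 2) :
    pp * qq ∣ c ∧ pp * qq ∣ d := by
  obtain ⟨h1, h2, h3, h4⟩ := h
  have n1 : ∀ r : A, ¬ pp ∣ r ^ 2 + r + X := by
    rw [pp_eq] at h2 ⊢
    exact noroot 7 2 le_rfl h2 (by decide +kernel)
  have n2 : ∀ r : A, ¬ qq ∣ r ^ 2 + r + X := by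
    rw [qq_eq] at h4 ⊢
    exact noroot 109 6 (by norm_num) h4 (by decide +kernel)
  have a1 := aniso h1 n1 ((dvd_mul_right _ _).trans hd)
  have a2 := aniso h3 n2 ((dvd_mul_left _ _).trans hd)
  have hc : IsCoprime pp qq := by
    rw [h1.coprime_iff_not_dvd]
    intro hpq
    have := natDegree_eq_of_degree_eq
      (degree_eq_degree_of_associated ((h1.dvd_irreducible_iff_associated h3).1 hpq))
    omega
  exact ⟨hc.mul_dvd a1.1 a2.1, hc.mul_dvd a1.2 a2.2⟩

/-- Reduced trace and reduced norm. -/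
def trq (y : Quat FF) : FF := 2 * y.re + y.imI

def nmq (y : Quat FF) : FF := y.re ^ 2 + y.re * y.imI - algebraMap A FF X * y.imI ^ 2 -
  algebraMap A FF (pp * qq) * (y.imJ ^ 2 + y.imJ * y.imK - algebraMap A FF X * y.imK ^ 2)

theorem tr_nm {y : Quat FF} (hy : IsIntegral A y) :
    (∃ t : A, algebraMap A FF t = trq y) ∧ ∃ n : A, algebraMap A FF n = nmq y := by
  by_cases hs : y.imI = 0 ∧ y.imJ = 0 ∧ y.imK = 0
  · have e : y = algebraMap FF (Quat FF) y.re := by
      rw [QuaternionAlgebra.algebraMap_eq]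
      ext <;> simp [hs.1, hs.2.1, hs.2.2]
    rw [e, isIntegral_algebraMap_iff QuaternionAlgebra.algebraMap_injective] at hy
    obtain ⟨a, ha⟩ := IsIntegrallyClosed.isIntegral_iff.1 hy
    refine ⟨⟨2 * a, ?_⟩, ⟨a ^ 2, ?_⟩⟩
    · simp [trq, hs.1, ha, map_ofNat]
    · simp [nmq, hs.1, hs.2.1, hs.2.2, ha]
  obtain ⟨p, hp, hpy⟩ := hy
  set q : FF[X] := X ^ 2 + (C (-trq y) * X + C (nmq y)) with hq
  have hqm : q.Monic := by
    refine monic_X_pow_add ?_
    exact lt_of_le_of_lt degree_linear_le (by norm_num)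
  have hqd : q.natDegree = 2 := by
    rw [hq]; compute_degree!
  have hqy : aeval y q = 0 := by
    simp only [hq, map_add, map_mul, map_pow, aeval_X, aeval_C, QuaternionAlgebra.algebraMap_eq]
    obtain ⟨a, b, c, d⟩ := y
    rw [pow_two]
    simp only [QuaternionAlgebra.mk_mul_mk, QuaternionAlgebra.mk_add_mk, trq, nmq]
    ext <;> simp <;> ring
  have hpy' : aeval y (p.map (algebraMap A FF)) = 0 := by
    rw [aeval_map_algebraMap]; exact hpy
  have hr : aeval y (p.map (algebraMap A FF) %ₘ q) = 0 := by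
    rw [aeval_modByMonic_eq_self_of_root hqy, hpy']
  have hrd : (p.map (algebraMap A FF) %ₘ q).natDegree ≤ 1 := by
    have := natDegree_modByMonic_lt (p.map (algebraMap A FF)) hqm
      (by intro h; rw [h, natDegree_one] at hqd; omega)
    omega
  obtain ⟨b, a, hab⟩ := exists_eq_X_add_C_of_natDegree_le_one hrd
  rw [hab] at hr
  simp only [map_add, map_mul, aeval_X, aeval_C, QuaternionAlgebra.algebraMap_eq] at hr
  rw [← QuaternionAlgebra.mk.eta y] at hr
  simp only [QuaternionAlgebra.mk_mul_mk, QuaternionAlgebra.mk_add_mk] at hr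
  have r0 := congrArg QuaternionAlgebra.re hr
  have r1 := congrArg QuaternionAlgebra.imI hr
  have r2 := congrArg QuaternionAlgebra.imJ hr
  have r3 := congrArg QuaternionAlgebra.imK hr
  simp at r0 r1 r2 r3
  have hb : b = 0 := by tauto
  have ha : a = 0 := by simpa [hb] using r0
  have hdvd : q ∣ p.map (algebraMap A FF) := by
    rw [← modByMonic_eq_zero_iff_dvd hqm, hab, ha, hb]; simp
  obtain ⟨g, hg⟩ := IsIntegrallyClosed.eq_map_mul_C_of_dvd FF hp hdvd
  rw [hqm.leadingCoeff, C_1, mul_one] at hg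
  have c1 := congrArg (fun f => f.coeff 1) hg
  have c0 := congrArg (fun f => f.coeff 0) hg
  simp [hq, coeff_X, coeff_C] at c1 c0
  exact ⟨⟨-g.coeff 1, by rw [map_neg, c1, neg_neg]⟩, ⟨g.coeff 0, c0⟩⟩

theorem maxo (h : IRR) : MAXO := by
  intro S hS hI y hy
  have key : ∀ z ∈ S, (∃ t : A, algebraMap A FF t = trq z) ∧ ∃ n : A, algebraMap A FF n = nmq z :=
    fun z hz => tr_nm (IsIntegral.of_mem_of_fg S hS z hz)
  have two : (2 : FF) = 0 := by
    have : (2 : A) = 0 := by rw [← one_add_one_eq_two]; exact add_self_A 1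
    rw [← map_ofNat (algebraMap A FF) 2, this, map_zero]
  have inj : Function.Injective (algebraMap A FF) := IsFractionRing.injective A FF
  have mi : (⟨0, 1, 0, 0⟩ : Quat FF) ∈ S := hI _ ⟨⟨0, 1, 0, 0⟩, by simp⟩
  have mj : (⟨0, 0, 1, 0⟩ : Quat FF) ∈ S := hI _ ⟨⟨0, 0, 1, 0⟩, by simp⟩
  have mk : (⟨0, 0, 0, 1⟩ : Quat FF) ∈ S := hI _ ⟨⟨0, 0, 0, 1⟩, by simp⟩
  obtain ⟨a, b, c, d⟩ := y
  obtain ⟨b', hb⟩ := (key _ hy).1
  obtain ⟨a', ha⟩ := (key _ (S.mul_mem hy mi)).1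
  obtain ⟨d', hd⟩ := (key _ (S.mul_mem hy mj)).1
  obtain ⟨c', hc⟩ := (key _ (S.mul_mem hy mk)).1
  simp only [trq, QuaternionAlgebra.mk_mul_mk, two] at ha hb hc hd
  have hb1 : b = algebraMap A FF b' := by rw [hb]; ring
  have ha1 : a = algebraMap A FF (a' - b') := by rw [map_sub, ha, hb]; ring
  have hd1 : algebraMap A FF d' = algebraMap A FF (pp * qq) * d := by rw [hd]; ring
  have hc1 : algebraMap A FF (-c') = algebraMap A FF (pp * qq) * c := by rw [map_neg, hc]; ring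
  have m0 : (⟨a, b, 0, 0⟩ : Quat FF) ∈ S := hI _ ⟨⟨a' - b', b', 0, 0⟩, ha1, hb1, by simp, by simp⟩
  obtain ⟨n, hn⟩ := (key _ (S.sub_mem hy m0)).2
  simp only [nmq, QuaternionAlgebra.mk_sub_mk] at hn
  have hdv : pp * qq ∣ (-c') ^ 2 + (-c') * d' + X * d' ^ 2 := by
    refine ⟨-n, inj ?_⟩
    rw [map_add, map_add, map_pow, map_mul, map_mul, map_pow, map_mul _ (pp * qq), map_neg _ n,
      hc1, hd1, hn]
    linear_combination (algebraMap A FF (pp * qq)) ^ 2 * algebraMap A FF X * d ^ 2 * two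
  obtain ⟨⟨c2, hc2⟩, ⟨d2, hd2⟩⟩ := nn_dvd h hdv
  have hn0 : algebraMap A FF (pp * qq) ≠ 0 := by
    rw [map_ne_zero_iff _ inj]
    exact mul_ne_zero h.1.ne_zero h.2.2.1.ne_zero
  refine ⟨⟨a' - b', b', c2, d2⟩, ha1, hb1, ?_, ?_⟩
  · refine mul_left_cancel₀ hn0 ?_
    rw [← map_mul, ← hc2, hc1]
  · refine mul_left_cancel₀ hn0 ?_
    rw [← map_mul, ← hd2, hd1]

end Pool.Agent.MP_a88b1d_nt.H11
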